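import Mathlib
import Pool.Agent.Lib.MP_36fd63_nt.H61Star

set_option autoImplicit false

namespace Pool.Agent.Results.MP_36fd63_nt.LogLogPower

open Pool.Agent.Lib.MP_36fd63_nt

/-- For every `k ≥ 2` and every `γ < k - 1` there are arbitrarily large finite sets `B` of integers
such that every finite set `C` of nonnegative integers whose `k`-fold sumset contains all
nonnegative elements of the `k`-fold sumset of `B` has at least `|B| exp ((log log |B|) ^ γ)`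
elements. -/
theorem result (k : ℕ) (hk : 2 ≤ k) (γ : ℝ) (hγ : γ < (k : ℝ) - 1) (n₀ : ℕ) :
    ∃ B : Finset ℤ, n₀ < B.card ∧ ∀ C : Finset ℕ,
      (∀ a : ℕ, (∃ b : Fin k → ℤ, (∀ i, b i ∈ B) ∧ ∑ i, b i = (a : ℤ)) →
        ∃ c : Fin k → ℕ, (∀ i, c i ∈ C) ∧ ∑ i, c i = a) →
      (B.card : ℝ) * Real.exp (Real.log (Real.log B.card) ^ γ) ≤ C.card := by
  obtain ⟨j, rfl⟩ : ∃ j, k = j + 1 := ⟨k - 1, by omega⟩
  obtain ⟨B, h1, h2⟩ := mainL j (by omega) (γ := γ) (by simpa using hγ) n₀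
  let e : Option (Fin j) ≃ Fin (j + 1) := Fintype.equivFinOfCardEq (by simp)
  refine ⟨B, h1, fun C hC => h2 C fun a ⟨f, hf, ha⟩ => ?_⟩
  obtain ⟨c, hc, hca⟩ := hC a ⟨f ∘ e.symm, fun i => hf _, (e.symm.sum_comp f).trans ha⟩
  exact ⟨c ∘ e, fun i => hc _, (e.sum_comp c).trans hca⟩

end Pool.Agent.Results.MP_36fd63_nt.LogLogPower
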