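import Mathlib
import Pool.Agent.Lib.MP_36fd63_nt.H32Mul

set_option autoImplicit false

namespace Pool.Agent.Results.MP_36fd63_nt.MultiplicativeGap

open Pool.Agent.Lib.MP_36fd63_nt

/-- For every `k ≥ 2` there is `c > 0` such that for all large `n` there is a set `B` of `n`
positive rationals such that every finite set `C` of natural numbers whose `k`-fold product set
contains all natural numbers in the `k`-fold product set of `B` has at least `c n ^ k / log n`
elements. -/
theorem result (k : ℕ) (hk : 2 ≤ k) :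
    ∃ c : ℝ, 0 < c ∧ ∃ n₀ : ℕ, ∀ n : ℕ, n₀ ≤ n → ∃ B : Finset ℚ,
      B.card = n ∧ (∀ b ∈ B, 0 < b) ∧ ∀ C : Finset ℕ,
        (∀ a : ℕ, (∃ b : Fin k → ℚ, (∀ i, b i ∈ B) ∧ ∏ i, b i = (a : ℚ)) →
          ∃ x : Fin k → ℕ, (∀ i, x i ∈ C) ∧ ∏ i, x i = a) →
        c * (n : ℝ) ^ k / Real.log n ≤ C.card :=
  H32.main k hk

end Pool.Agent.Results.MP_36fd63_nt.MultiplicativeGap
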