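import Mathlib
import Pool.Agent.FS.ScaleMatchings.Core

set_option autoImplicit false

namespace Pool.Agent.Results.MP_36fd63_nt.ScaleMatchings

open Finset Filter

/-- Let `m` points carry real values `v j p` (`j < k`), and let `M 0, …, M (d-1)` be matchings of
`k`-tuples of points (two tuples of one `M l` that agree in a coordinate are equal) whose sums
`∑ j, v j (t j)` are nonnegative and lie on separated scales: every sum in a later matching exceeds
`k` times every sum in an earlier one. Then there is a finite set `B` of integers, of size between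
`m` and a fixed power of `m`, such that every finite set `C` of nonnegative integers whose `k`-fold
sumset contains all nonnegative elements of the `k`-fold sumset of `B` has
`|B| * ∑ l, |M l| ≤ 32 k ^ 3 m |C|`. -/
theorem result (k m d : ℕ) (hk : 1 ≤ k) (hm : 1 ≤ m) (v : Fin k → Fin m → ℝ)
    (M : Fin d → Finset (Fin k → Fin m))
    (hmatch : ∀ l, ∀ t ∈ M l, ∀ t' ∈ M l, ∀ j, t j = t' j → t = t')
    (hpos : ∀ l, ∀ t ∈ M l, 0 ≤ ∑ j, v j (t j))
    (hsep : ∀ l l', l < l' → ∀ t ∈ M l, ∀ t' ∈ M l',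
      (k : ℝ) * ∑ j, v j (t j) < ∑ j, v j (t' j)) :
    ∃ B : Finset ℤ, m ≤ B.card ∧ B.card ≤ (200 * k ^ 4 * m ^ (k + 1)) ^ (3 * k + 4) ∧
      ∀ C : Finset ℕ,
        (∀ a : ℕ, (∃ b : Fin k → ℤ, (∀ i, b i ∈ B) ∧ ∑ i, b i = (a : ℤ)) →
          ∃ c : Fin k → ℕ, (∀ i, c i ∈ C) ∧ ∑ i, c i = a) →
        B.card * ∑ l, (M l).card ≤ 32 * k ^ 3 * m * C.card := by
  classical
  obtain ⟨L, hL⟩ : ∃ L : Finset (Fin d), L = univ.filter fun l => (M l).Nonempty := ⟨_, rfl⟩
  have hL' : ∀ l, l ∈ L ↔ (M l).Nonempty := fun l => by simp [hL]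
  have hsumL : ∑ l, #(M l) = ∑ l ∈ L, #(M l) :=
    (sum_subset (subset_univ L) fun l _ h =>
      card_eq_zero.2 (not_nonempty_iff_eq_empty.1 fun h' => h ((hL' l).2 h'))).symm
  obtain h0 | h0 := L.eq_empty_or_nonempty
  · have hc : #((range m).image fun i : ℕ => (i : ℤ)) = m := by
      rw [card_image_of_injective _ Nat.cast_injective, card_range]
    refine ⟨(range m).image fun i : ℕ => (i : ℤ), hc.ge, ?_, fun C _ => ?_⟩
    · rw [hc]
      calc m ≤ m ^ (k + 1) := Nat.le_self_pow (by omega) _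
        _ ≤ 200 * k ^ 4 * m ^ (k + 1) := Nat.le_mul_of_pos_left _ (by positivity)
        _ ≤ _ := Nat.le_self_pow (by omega) _
    · rw [hsumL, h0, sum_empty, mul_zero]
      exact Nat.zero_le _
  let φ : Fin #L ↪o Fin d := L.orderEmbOfFin rfl
  have hφ : ∀ i, (M (φ i)).Nonempty := fun i => (hL' _).1 (L.orderEmbOfFin_mem rfl i)
  have hsumφ : ∑ l, #(M l) = ∑ i, #(M (φ i)) := by
    rw [hsumL]
    conv_lhs => rw [← L.map_orderEmbOfFin_univ rfl, sum_map]
    rfl
  obtain ⟨S, hS⟩ : ∃ S : (Fin k → Fin m) → ℝ, ∀ t, ∑ j, v j (t j) = S t := ⟨_, fun _ => rfl⟩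
  simp only [hS] at hpos hsep
  choose lo hlo hlo' using fun i => exists_min_image (M (φ i)) S (hφ i)
  choose up hup hup' using fun i => exists_max_image (M (φ i)) S (hφ i)
  have hk' : (1 : ℝ) ≤ k := by exact_mod_cast hk
  have hd : #L ≤ m ^ k := by
    have key : ∀ i i', i < i' → lo i ≠ lo i' := fun i i' h he => by
      have h1 := hsep _ _ (φ.strictMono h) _ (hlo i) _ (hlo i')
      have h2 := hpos _ _ (hlo i)
      rw [← he] at h1
      nlinarith
    have hinj : Function.Injective lo := fun i i' he => by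
      by_contra hne
      exact (lt_or_gt_of_ne hne).elim (fun h => key i i' h he) fun h => key i' i h he.symm
    simpa using Fintype.card_le_of_injective lo hinj
  obtain ⟨N, hN0, hN⟩ : ∃ N : ℝ, 0 ≤ N ∧
      ∀ i i', i < i' → (k : ℝ) * (k + 1) < N * (S (lo i') - k * S (up i)) := by
    refine ((eventually_ge_atTop 0).and (eventually_all.2 fun i => eventually_all.2 fun i' =>
      eventually_all.2 fun h => ?_)).exists
    exact (tendsto_id.atTop_mul_const (sub_pos.2
      (hsep _ _ (φ.strictMono h) _ (hup i) _ (hlo i')))).eventually_gt_atTop _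
  obtain ⟨B, -, h1, h2, h3⟩ := Pool.Agent.FS.ScaleMatchings.transferS (Γ := Fin m) (ι := Fin k)
    (fun j p => ⌈N * v j p⌉) (fun i => M (φ i))
    (fun i j w hw w' hw' h => hmatch _ w hw w' hw' j h)
    (fun i => N * S (lo i)) (fun i => N * S (up i) + k)
    (fun i => mul_nonneg hN0 (hpos _ _ (hlo i)))
    (fun i w hw => by
      have h1 : N * S w = ∑ j, N * v j (w j) := by rw [← hS, mul_sum]
      push_cast
      constructor
      · refine (mul_le_mul_of_nonneg_left (hlo' i w hw) hN0).trans ?_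
        rw [h1]
        exact sum_le_sum fun j _ => Int.le_ceil _
      · have h2 : ∑ j, ((⌈N * v j (w j)⌉ : ℤ) : ℝ) ≤ ∑ j, (N * v j (w j) + 1) :=
          sum_le_sum fun j _ => (Int.ceil_lt_add_one _).le
        rw [sum_add_distrib, ← h1] at h2
        simp only [sum_const, card_univ, Fintype.card_fin, nsmul_eq_mul, mul_one] at h2
        have h3 := mul_le_mul_of_nonneg_left (hup' i w hw) hN0
        linarith)
    (fun i i' h => by
      have := hN i i' h
      rw [Fintype.card_fin]
      linarith)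
    (by rw [Fintype.card_fin]; omega) (card_pos.2 h0) (by rw [Fintype.card_fin]; omega)
  simp only [Fintype.card_fin] at h1 h2 h3
  refine ⟨B, h1, h2.trans (Nat.pow_le_pow_left ?_ _), fun C hC => hsumφ ▸ h3 C hC⟩
  rw [pow_succ m k, mul_assoc _ _ m]
  exact Nat.mul_le_mul_left _ (Nat.mul_le_mul_right _ hd)

end Pool.Agent.Results.MP_36fd63_nt.ScaleMatchings
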