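import Pool.Agent.Lib.MP_36fd63_nt.H1Main

open Pool.Agent.Lib.MP_36fd63_nt.Up

theorem Pool.Agent.Results.MP_36fd63_nt.SubQuadratic.result (k : ℕ) (hk : 2 ≤ k) :
    ∃ K : ℝ, ∀ B : Finset ℤ, 2 ≤ B.card → ∃ C : Finset ℕ,
      (C.card : ℝ) ≤ K * (B.card : ℝ) ^ (2 - 1 / ((k : ℝ) - 1)) * Real.log B.card ^ (k + 2) ∧
      ∀ a : ℕ, (∃ b : Fin k → ℤ, (∀ i, b i ∈ B) ∧ ∑ i, b i = (a : ℤ)) →
        ∃ c : Fin k → ℕ, (∀ i, c i ∈ C) ∧ ∑ i, c i = a := by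
  obtain ⟨K, hK⟩ := upper k hk
  refine ⟨K, fun B hB => ?_⟩
  obtain ⟨C, h1, h2⟩ := hK B Subtype.val (by simpa using hB)
  rw [Fintype.card_coe] at h1
  refine ⟨C.image Int.toNat, le_trans (by exact_mod_cast Finset.card_image_le) h1, ?_⟩
  rintro a ⟨b, hb, ha⟩
  obtain ⟨c, h3, h4⟩ := h2 (fun i => ⟨b i, hb i⟩) (by rw [ha]; positivity)
  refine ⟨fun i => (c i).toNat, fun i => Finset.mem_image_of_mem _ (h3 i).1, ?_⟩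
  have h5 : ((∑ i, (c i).toNat : ℕ) : ℤ) = a := by
    rw [Nat.cast_sum, Finset.sum_congr rfl fun i _ => Int.toNat_of_nonneg (h3 i).2, h4, ha]
  exact_mod_cast h5
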